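import Pool.Agent.H95.UG.Filt

/-!
# FILT: the elements of `E_{k,m}(e)` have degree at most `m`
-/

set_option autoImplicit false

open MvPolynomial

namespace Pool.Agent.H95.UG

open Pool.Agent.H47.UG Pool.Agent.H47.UG.FF

variable {K : Type} [Field K] {n d : ℕ} {F : HP K n} (T : FF d F)

theorem degree_le_weight (b : ℕ × Fin n →₀ ℕ) : b.degree ≤ Finsupp.weight FF.w b := by
  rw [Finsupp.weight_apply, Finsupp.degree_apply, Finsupp.sum]
  refine Finset.sum_le_sum fun p _ => ?_
  rw [smul_eq_mul]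
  exact Nat.le_mul_of_pos_right _ (Nat.succ_pos _)

theorem coeff_trunc (q : ℕ) (v : T.BB) (b : ℕ × Fin n →₀ ℕ) :
    coeff b (T.trunc q v) = if b.degree < q then coeff b v else 0 := by
  classical
  rw [trunc_apply, coeff_sum]
  simp only [coeff_homogeneousComponent]
  rw [Finset.sum_ite_eq]
  simp only [Finset.mem_range]

theorem trunc_of_weight {m : ℕ} {v : T.BB} (hv : IsWeightedHomogeneous FF.w v m) :
    T.trunc (m + 1) v = v := by
  ext b
  rw [coeff_trunc]
  split_ifs with h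
  · rfl
  · by_contra h1
    have h2 := hv (Ne.symm h1)
    have h3 := degree_le_weight b
    omega

/-- the elements of `E` have weight `m` -/
theorem weight_EE
    (hD : ∀ (s : ℕ) (v : T.L), IsWeightedHomogeneous FF.w ((T.D : T.BB → T.BB)^[s + 1] (C v)) (s + 1))
    {k : ℕ} {e : ℤ} {m : ℕ} {i : Fin (n + 2)} {v : T.BB} (hv : v ∈ T.EE k e m i) :
    IsWeightedHomogeneous FF.w v m := by
  classical
  unfold FF.EE at hv
  induction hv using Submodule.span_induction with
  | mem v hv =>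
    obtain ⟨a, _, q, s, l, hs, rfl⟩ := hv
    have h1 : IsWeightedHomogeneous (M := ℕ) FF.w
        (∏ r : Fin q, (T.D : T.BB → T.BB)^[(s r : ℕ) + 1] (C (T.x (l r) / T.x i)))
        (∑ r : Fin q, ((s r : ℕ) + 1)) :=
      IsWeightedHomogeneous.prod Finset.univ _ _ fun r _ => hD _ _
    have h2 : IsWeightedHomogeneous (M := ℕ) FF.w (C (T.x i ^ e * a) : T.BB) 0 :=
      isWeightedHomogeneous_C _ _
    have h3 := h2.mul h1
    rwa [zero_add, hs] at h3
  | zero => exact isWeightedHomogeneous_zero _ _ _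
  | add u v _ _ hu hv => exact hu.add hv
  | smul c v _ hv =>
    intro b hb
    refine hv fun h => hb ?_
    rw [coeff_smul, h, smul_zero]

/-- FILT from LIFT, STRICT, SYMB, and the elementary properties of `E`. -/
theorem filt_of' (k : ℕ) (e : ℤ) (m : ℕ)
    (hlift : ∀ (q : ℕ) (i : Fin (n + 2)) (v : T.BB), v ∈ T.GG k e m q i →
      ∃ v' ∈ T.EE k e m i, (∀ j < q, homogeneousComponent j v' = 0) ∧ homogeneousComponent q v' = v)
    (hstrict : ∀ (q : ℕ) (i : Fin (n + 2)) (v : T.BB), v ∈ T.EE k e m i →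
      (∀ j < q, homogeneousComponent j v = 0) → homogeneousComponent q v ∈ T.GG k e m q i)
    (hstab : T.Stable (T.EE k e m)) (hsym : T.Sym (T.EE k e m))
    (hD : ∀ (s : ℕ) (v : T.L), (∀ j < 2, homogeneousComponent j
      ((T.D : T.BB → T.BB)^[s + 1] (C v) - T.δ s v) = 0) ∧
      IsWeightedHomogeneous FF.w ((T.D : T.BB → T.BB)^[s + 1] (C v)) (s + 1))
    (g N : ℕ → ℕ)
    (hg : ∀ q ≤ m, ∃ S : Submodule K T.BB, S ≤ H0 (T.GG k e m q) ∧ FiniteDimensional K S ∧
      Module.finrank K S = g q)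
    (hN : ∀ q ≤ m, T.H1le (T.GG k e m q) (N q)) :
    ∃ H : Submodule K T.BB, H ≤ H0 (T.EE k e m) ∧ FiniteDimensional K H ∧
      ∑ q ∈ Finset.range (m + 1), g q ≤ Module.finrank K H + ∑ q ∈ Finset.range (m + 1), N q :=
  filt_of T k e m hlift hstrict hstab hsym
    (fun _ _ hv => trunc_of_weight T (weight_EE T (fun s v => (hD s v).2) hv)) g N hg hN

end Pool.Agent.H95.UG
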