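import Mathlib

/-!
# One step of the descent through the filtration by degree (linear algebra)
-/

set_option autoImplicit false

namespace Pool.Agent.H95.UG

/-- One step: `t` is the truncation in degrees `< q`, `c` the component of degree `q`. -/
theorem filt_step {K V ι : Type} [Field K] [AddCommGroup V] [Module K V] (i₀ : ι)
    (E G : ι → Submodule K V) (t c : V →ₗ[K] V) (htt : ∀ v, t (t v + c v) = t v)
    (hlift : ∀ i, ∀ v ∈ G i, ∃ v' ∈ E i, t v' = 0 ∧ c v' = v)
    (Coc : (ι → V) → Prop)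
    (hcoc : ∀ y : ι → V, (∀ i, y i ∈ E i) → (∀ i, t (y i) = t (y i₀)) → Coc fun i => c (y i - y i₀))
    (N : ℕ) (Φ : (ι → V) →ₗ[K] (Fin N → K))
    (hΦ : ∀ v, Coc v → Φ v = 0 → ∃ w, ∀ i, v i - w ∈ G i)
    (S : Submodule K V) (hS : S ≤ ⨅ i, (E i).map t) (hSf : FiniteDimensional K S)
    (R : Submodule K V) (hR : R ≤ ⨅ i, G i) (hRf : FiniteDimensional K R) :
    ∃ S' : Submodule K V, S' ≤ ⨅ i, (E i).map (t + c) ∧ FiniteDimensional K S' ∧
      Module.finrank K S + Module.finrank K R ≤ Module.finrank K S' + N := by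
  classical
  -- linear lifts of the elements of `S`
  have hsec : ∀ i, ∃ ℓ : S →ₗ[K] V, ∀ u : S, ℓ u ∈ E i ∧ t (ℓ u) = u := by
    intro i
    let f : E i →ₗ[K] (E i).map t := (t.domRestrict (E i)).codRestrict _ fun v =>
      Submodule.mem_map_of_mem v.2
    have hf : Function.Surjective f := by
      rintro ⟨v, hv⟩
      obtain ⟨u, hu, rfl⟩ := Submodule.mem_map.1 hv
      exact ⟨⟨u, hu⟩, Subtype.ext rfl⟩
    obtain ⟨g, hg⟩ := f.exists_rightInverse_of_surjective (LinearMap.range_eq_top.2 hf)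
    have hle : S ≤ (E i).map t := hS.trans (iInf_le _ i)
    refine ⟨(E i).subtype ∘ₗ g ∘ₗ Submodule.inclusion hle, fun u => ⟨?_, ?_⟩⟩
    · exact (g (Submodule.inclusion hle u)).2
    · have h1 := congrArg Subtype.val (LinearMap.congr_fun hg (Submodule.inclusion hle u))
      exact h1
  choose ℓ hℓ using hsec
  -- the cocycle
  let cc : S →ₗ[K] (ι → V) := LinearMap.pi fun i => c ∘ₗ (ℓ i - ℓ i₀)
  let Ψ : S →ₗ[K] (Fin N → K) := Φ ∘ₗ cc
  -- a linear lift of the kernel
  have hker : ∀ u ∈ LinearMap.ker Ψ, ∃ u' ∈ (⨅ i, (E i).map (t + c)), t u' = (u : V) := by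
    intro u hu
    have h1 : Coc (cc u) := by
      refine hcoc (fun i => ℓ i u) (fun i => (hℓ i u).1) fun i => ?_
      rw [(hℓ i u).2, (hℓ i₀ u).2]
    obtain ⟨w, hw⟩ := hΦ (cc u) h1 (LinearMap.mem_ker.1 hu)
    choose e he1 he2 he3 using fun i => hlift i _ (hw i)
    refine ⟨(u : V) + c (ℓ i₀ u) + w, ?_, ?_⟩
    · rw [Submodule.mem_iInf]
      intro i
      refine ⟨ℓ i u - e i, (E i).sub_mem (hℓ i u).1 (he1 i), ?_⟩
      have h2 : cc u i = c (ℓ i u) - c (ℓ i₀ u) := by
        change c ((ℓ i - ℓ i₀) u) = _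
        rw [LinearMap.sub_apply, map_sub]
      rw [LinearMap.add_apply, map_sub, map_sub, he2, he3, h2, (hℓ i u).2]
      abel
    · have h2 : cc u i₀ = 0 := by
        change c ((ℓ i₀ - ℓ i₀) u) = _
        rw [sub_self, LinearMap.zero_apply, map_zero]
      have h3 := htt (ℓ i₀ u - e i₀)
      rw [map_sub, map_sub, he2, he3, h2, (hℓ i₀ u).2] at h3
      have h4 : (u : V) - 0 + (c (ℓ i₀ u) - (0 - w)) = (u : V) + c (ℓ i₀ u) + w := by abel
      rw [h4] at h3
      rw [h3, sub_zero]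
  obtain ⟨P, hP1, hP2, hP3, hP4⟩ : ∃ P : Submodule K V, P ≤ (⨅ i, (E i).map (t + c)) ∧
      FiniteDimensional K P ∧ Module.finrank K P = Module.finrank K (LinearMap.ker Ψ) ∧
      ∀ v ∈ P, t v = 0 → v = 0 := by
    let M : Submodule K V := ⨅ i, (E i).map (t + c)
    let Q : Submodule K V := (LinearMap.ker Ψ).map S.subtype
    have hQ : Q ≤ M.map t := by
      rintro _ ⟨u, hu, rfl⟩
      obtain ⟨u', h1, h2⟩ := hker u hu
      exact ⟨u', h1, h2⟩
    let f : M →ₗ[K] M.map t := (t.domRestrict M).codRestrict _ fun v => Submodule.mem_map_of_mem v.2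
    have hf : Function.Surjective f := by
      rintro ⟨v, hv⟩
      obtain ⟨u, hu, rfl⟩ := Submodule.mem_map.1 hv
      exact ⟨⟨u, hu⟩, Subtype.ext rfl⟩
    obtain ⟨g, hg⟩ := f.exists_rightInverse_of_surjective (LinearMap.range_eq_top.2 hf)
    let h : Q →ₗ[K] V := M.subtype ∘ₗ g ∘ₗ Submodule.inclusion hQ
    have hth : ∀ v, t (h v) = v := fun v =>
      congrArg Subtype.val (LinearMap.congr_fun hg (Submodule.inclusion hQ v))
    have hinj : Function.Injective h := by
      intro a b hab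
      apply Subtype.ext
      rw [← hth a, ← hth b, hab]
    have : FiniteDimensional K Q := inferInstance
    refine ⟨LinearMap.range h, ?_, inferInstance, ?_, ?_⟩
    · rintro _ ⟨v, rfl⟩
      exact (g (Submodule.inclusion hQ v)).2
    · rw [LinearMap.finrank_range_of_inj hinj]
      exact Submodule.finrank_map_subtype_eq S (LinearMap.ker Ψ)
    · rintro _ ⟨v, rfl⟩ hv
      rw [hth] at hv
      have : v = 0 := Subtype.ext hv
      rw [this, map_zero]
  refine ⟨P ⊔ R, sup_le hP1 ?_, Submodule.finite_sup P R, ?_⟩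
  · intro v hv
    rw [Submodule.mem_iInf]
    intro i
    obtain ⟨v', h1, h2, h3⟩ := hlift i v ((Submodule.mem_iInf _).1 (hR hv) i)
    exact ⟨v', h1, by rw [LinearMap.add_apply, h2, h3, zero_add]⟩
  · have hdis : P ⊓ R = ⊥ := by
      rw [eq_bot_iff]
      rintro v ⟨hv1, hv2⟩
      have : t v = 0 := by
        obtain ⟨v', h1, h2, h3⟩ := hlift i₀ v ((Submodule.mem_iInf _).1 (hR hv2) i₀)
        have h4 := htt v'
        rwa [h2, h3, zero_add] at h4
      exact hP4 v hv1 this
    have h1 := Submodule.finrank_sup_add_finrank_inf_eq P R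
    rw [hdis, finrank_bot, add_zero, hP3] at h1
    have h2 := LinearMap.finrank_range_add_finrank_ker Ψ
    have h3 : Module.finrank K (LinearMap.range Ψ) ≤ N := by
      calc Module.finrank K (LinearMap.range Ψ) ≤ Module.finrank K (Fin N → K) :=
            Submodule.finrank_le _
        _ = N := by simp
    omega

end Pool.Agent.H95.UG
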