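import Pool.Agent.H47.UG.Lat
import Pool.Agent.H95.UG.FiltStep

/-!
# FILT: sections of `E_{k,m}(e)` from sections of the graded pieces
-/

set_option autoImplicit false

open MvPolynomial

namespace Pool.Agent.H95.UG

open Pool.Agent.H47.UG Pool.Agent.H47.UG.FF

variable {K : Type} [Field K] {n d : ℕ} {F : HP K n} (T : FF d F)

theorem trunc_apply (q : ℕ) (v : T.BB) :
    T.trunc q v = ∑ j ∈ Finset.range q, homogeneousComponent j v := by
  unfold FF.trunc
  rw [LinearMap.sum_apply]

theorem trunc_zero_iff (q : ℕ) (v : T.BB) :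
    T.trunc q v = 0 ↔ ∀ j < q, homogeneousComponent j v = 0 := by
  rw [trunc_apply]
  constructor
  · intro h j hj
    have h1 := congrArg (homogeneousComponent j) h
    rw [map_sum, map_zero, Finset.sum_eq_single j] at h1
    · rwa [homogeneousComponent_of_mem (homogeneousComponent_mem j v), if_pos rfl] at h1
    · intro l _ hl
      rw [homogeneousComponent_of_mem (homogeneousComponent_mem l v), if_neg (Ne.symm hl)]
    · intro h2
      exact absurd (Finset.mem_range.2 hj) h2
  · intro h
    exact Finset.sum_eq_zero fun j hj => h j (Finset.mem_range.1 hj)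

/-- The localisation is closed under differences. -/
theorem loc_sub {V : Type} [AddCommGroup V] [Module T.L V] [Module K V] [IsScalarTower K T.L V]
    {M : Lat (n := n) (K := K) V} (hM : T.Stable M) {i j : Fin (n + 2)} {v w : V}
    (hv : v ∈ T.loc M i j) (hw : w ∈ T.loc M i j) : v - w ∈ T.loc M i j := by
  obtain ⟨a, ha⟩ := hv
  obtain ⟨b, hb⟩ := hw
  have hx : T.x j / T.x i ∈ T.A i := Algebra.subset_adjoin ⟨j, rfl⟩
  refine ⟨a + b, ?_⟩
  rw [smul_sub]
  refine (M i).sub_mem ?_ ?_
  · rw [add_comm a b, pow_add, mul_smul]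
    exact hM i _ (Subalgebra.pow_mem _ hx b) _ ha
  · rw [pow_add, mul_smul]
    exact hM i _ (Subalgebra.pow_mem _ hx a) _ hb

theorem mem_loc_self {V : Type} [AddCommGroup V] [Module T.L V] [Module K V] [IsScalarTower K T.L V]
    {M : Lat (n := n) (K := K) V} {i : Fin (n + 2)} (j : Fin (n + 2)) {v : V} (hv : v ∈ M i) :
    v ∈ T.loc M i j := ⟨0, by rwa [pow_zero, one_smul]⟩

/-- FILT from the statements LIFT, STRICT, and from the elementary properties of `E`. -/
theorem filt_of (k : ℕ) (e : ℤ) (m : ℕ)
    (hlift : ∀ (q : ℕ) (i : Fin (n + 2)) (v : T.BB), v ∈ T.GG k e m q i →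
      ∃ v' ∈ T.EE k e m i, (∀ j < q, homogeneousComponent j v' = 0) ∧ homogeneousComponent q v' = v)
    (hstrict : ∀ (q : ℕ) (i : Fin (n + 2)) (v : T.BB), v ∈ T.EE k e m i →
      (∀ j < q, homogeneousComponent j v = 0) → homogeneousComponent q v ∈ T.GG k e m q i)
    (hstab : T.Stable (T.EE k e m)) (hsym : T.Sym (T.EE k e m))
    (htop : ∀ (i : Fin (n + 2)) (v : T.BB), v ∈ T.EE k e m i → T.trunc (m + 1) v = v)
    (g N : ℕ → ℕ)
    (hg : ∀ q ≤ m, ∃ S : Submodule K T.BB, S ≤ H0 (T.GG k e m q) ∧ FiniteDimensional K S ∧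
      Module.finrank K S = g q)
    (hN : ∀ q ≤ m, T.H1le (T.GG k e m q) (N q)) :
    ∃ H : Submodule K T.BB, H ≤ H0 (T.EE k e m) ∧ FiniteDimensional K H ∧
      ∑ q ∈ Finset.range (m + 1), g q ≤ Module.finrank K H + ∑ q ∈ Finset.range (m + 1), N q := by
  have hcomp : ∀ q, ∃ c : T.BB →ₗ[K] T.BB, ∀ v, c v = homogeneousComponent q v := fun q =>
    ⟨(homogeneousComponent q : T.BB →ₗ[T.L] T.BB).restrictScalars K, fun v => rfl⟩
  have key : ∀ q ≤ m + 1, ∃ S : Submodule K T.BB,
      S ≤ ⨅ i, (T.EE k e m i).map ((T.trunc q).restrictScalars K) ∧ FiniteDimensional K S ∧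
      ∑ j ∈ Finset.range q, g j ≤ Module.finrank K S + ∑ j ∈ Finset.range q, N j := by
    intro q
    induction q with
    | zero =>
      intro _
      exact ⟨⊥, bot_le, inferInstance, by simp⟩
    | succ q ih =>
      intro hq
      obtain ⟨S, hS1, hS2, hS3⟩ := ih (by omega)
      obtain ⟨R, hR1, hR2, hR3⟩ := hg q (by omega)
      obtain ⟨Φ, hΦ⟩ := hN q (by omega)
      obtain ⟨c, hc⟩ := hcomp q
      have htr : ∀ v : T.BB, ((T.trunc q).restrictScalars K) v = T.trunc q v := fun v => rfl
      have hadd : (T.trunc (q + 1)).restrictScalars K = (T.trunc q).restrictScalars K + c := by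
        refine LinearMap.ext fun v => ?_
        rw [LinearMap.add_apply, hc, htr]
        change T.trunc (q + 1) v = _
        rw [trunc_apply, trunc_apply, Finset.sum_range_succ]
      have H1 : ∀ v, ((T.trunc q).restrictScalars K) (((T.trunc q).restrictScalars K) v + c v) =
          ((T.trunc q).restrictScalars K) v := by
        intro v
        rw [htr, htr, hc]
        have h4 : T.trunc q (T.trunc q v + homogeneousComponent q v - v) = 0 := by
          rw [trunc_zero_iff]
          intro j hj
          rw [map_sub, map_add, trunc_apply, map_sum, Finset.sum_eq_single j,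
            homogeneousComponent_of_mem (homogeneousComponent_mem j v), if_pos rfl,
            homogeneousComponent_of_mem (homogeneousComponent_mem q v), if_neg (by omega), add_zero,
            sub_self]
          · intro l _ hl
            rw [homogeneousComponent_of_mem (homogeneousComponent_mem l v), if_neg (Ne.symm hl)]
          · intro h5
            exact absurd (Finset.mem_range.2 hj) h5
        rw [map_sub, sub_eq_zero] at h4
        exact h4
      have H2 : ∀ i, ∀ v ∈ T.GG k e m q i, ∃ v' ∈ T.EE k e m i,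
          ((T.trunc q).restrictScalars K) v' = 0 ∧ c v' = v := by
        intro i v hv
        obtain ⟨v', h4, h5, h6⟩ := hlift q i v hv
        exact ⟨v', h4, (trunc_zero_iff T q v').2 h5, by rw [hc, h6]⟩
      have H3 : ∀ y : Fin (n + 2) → T.BB, (∀ i, y i ∈ T.EE k e m i) →
          (∀ i, ((T.trunc q).restrictScalars K) (y i) = ((T.trunc q).restrictScalars K) (y 0)) →
          T.Cocyc (T.GG k e m q) fun i => c (y i - y 0) := by
        intro y hy1 hy2 i j
        change c (y i - y 0) - c (y j - y 0) ∈ _
        rw [← map_sub, sub_sub_sub_cancel_right, hc]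
        have h4 : y i - y j ∈ T.loc (T.EE k e m) i j := by
          refine loc_sub T hstab (mem_loc_self T j (hy1 i)) ?_
          rw [hsym i j]
          exact mem_loc_self T i (hy1 j)
        obtain ⟨M, hM⟩ := h4
        refine ⟨M, ?_⟩
        have h5 : T.trunc q (y i - y j) = 0 := by
          rw [map_sub, sub_eq_zero]
          exact (hy2 i).trans (hy2 j).symm
        have h6 := hstrict q i _ hM (by
          intro l hl
          rw [map_smul, (trunc_zero_iff T q _).1 h5 l hl, smul_zero])
        rwa [map_smul] at h6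
      obtain ⟨S', h1, h2, h3⟩ := filt_step (K := K) (V := T.BB) (ι := Fin (n + 2)) 0
        (T.EE k e m) (T.GG k e m q) ((T.trunc q).restrictScalars K) c H1 H2
        (T.Cocyc (T.GG k e m q)) H3 (N q) Φ hΦ S hS1 hS2 R hR1 hR2
      refine ⟨S', ?_, h2, ?_⟩
      · rw [hadd]
        exact h1
      · rw [Finset.sum_range_succ, Finset.sum_range_succ]
        omega
  obtain ⟨S, h1, h2, h3⟩ := key (m + 1) le_rfl
  refine ⟨S, ?_, h2, h3⟩
  intro v hv
  unfold H0
  rw [Submodule.mem_iInf]
  intro i
  obtain ⟨u, hu1, hu2⟩ := (Submodule.mem_iInf _).1 (h1 hv) i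
  have h4 : T.trunc (m + 1) u = v := hu2
  rw [htop i u hu1] at h4
  rwa [← h4]

end Pool.Agent.H95.UG
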